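import Mathlib
import Pool.Agent.P8H6.Nar.Full
import Pool.Agent.N900.FC.BoxQ

/-!
# Almost every set of times contains a large subset whose sub-patterns occur along narrow progressions

The orbit of `n + 1` under `x ↦ 2 x - 1` consists of the numbers `2 ^ t n + 1`.
-/

set_option autoImplicit false

namespace Pool.Agent.P8H6.Orb2

open Finset Filter Topology
open Pool.Agent.Y827.HN
open Pool.Agent.P8H6.Nar (patTD)

/-- of the numbers `2 ^ t n + 1`, `t ∈ V`, exactly those with `t ∈ J` are prime -/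
def Pt (V J : Finset ℕ) (n : ℕ) : Prop :=
  ∀ t ∈ V, ((2 ^ t * n + 1).Prime ↔ t ∈ J)

/-- one length, infinitely many scales -/
def Nf (V F : Finset ℕ) (l : ℕ) : Prop :=
  ∃ C : ℕ, ∃ᶠ x : ℕ in atTop, ∀ J ⊆ F, ∃ D : ℕ, 1 ≤ D ∧ (D : ℝ) ≤ Real.log x ^ C ∧
    (x : ℝ) / Real.log x ^ C ≤
      ({m : ℕ | 1 ≤ m ∧ m ≤ x ∧ ∀ j < l, Pt V J (m + j * D)}.ncard : ℝ)

theorem Nf_mono {V F : Finset ℕ} {l l' : ℕ} (h : l' ≤ l) (hl : Nf V F l) : Nf V F l' := by
  obtain ⟨C, hC⟩ := hl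
  refine ⟨C, hC.mono fun x hx J hJ => ?_⟩
  obtain ⟨D, h1, h2, h3⟩ := hx J hJ
  refine ⟨D, h1, h2, h3.trans ?_⟩
  rw [Nat.cast_le]
  apply Set.ncard_le_ncard
  · rintro m ⟨h4, h5, h6⟩
    exact ⟨h4, h5, fun j hj => h6 j (by omega)⟩
  · exact (Set.finite_Iic x).subset fun m hm => hm.2.1

/-- the form of a time -/
def fm (t : ℕ) : ℤ × ℤ := ((2 : ℤ) ^ t, 1)

theorem fm_inj : Function.Injective fm := by
  intro t t' h
  have h1 : (2 : ℤ) ^ t = 2 ^ t' := (Prod.mk.inj h).1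
  exact Int.pow_right_injective (by norm_num) h1

/-- all patterns in `F`, inside `V` -/
def AX (V F : Finset ℕ) (l C N : ℕ) : Prop :=
  ∀ J ⊆ F, QX l C N (J.image fm) ((V \ J).image fm)

/-- from the forms to the times -/
theorem trans (V F : Finset ℕ) (l C N : ℕ)
    (h : AX V F l C N) (J : Finset ℕ) (hJ : J ⊆ F) :
    ∃ D : ℕ, 1 ≤ D ∧ (D : ℝ) ≤ Real.log N ^ C ∧ (N : ℝ) / Real.log N ^ C ≤
      ({m : ℕ | 1 ≤ m ∧ m ≤ N ∧ ∀ j < l, Pt V J (m + j * D)}.ncard : ℝ) := by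
  classical
  obtain ⟨d, hd1, hd2, hd3⟩ := h J hJ
  refine ⟨d, hd1, hd2, hd3.trans ?_⟩
  rw [Nat.cast_le]
  unfold cntX
  rw [← Set.ncard_coe_finset]
  apply Set.ncard_le_ncard
  · intro n hn
    rw [mem_coe, mem_filter, mem_Icc] at hn
    obtain ⟨⟨hn1, hn2⟩, hn3⟩ := hn
    refine ⟨by omega, hn2, ?_⟩
    intro j hj
    obtain ⟨h1, h2⟩ := hn3 j hj
    intro t ht
    have hval : ((2 : ℤ) ^ t * ((n + j * d : ℕ) : ℤ) + 1).toNat = 2 ^ t * (n + j * d) + 1 := by
      have h4 : (2 : ℤ) ^ t * ((n + j * d : ℕ) : ℤ) + 1 = ((2 ^ t * (n + j * d) + 1 : ℕ) : ℤ) := by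
        push_cast; ring
      rw [h4, Int.toNat_natCast]
    constructor
    · intro hp
      by_contra htJ
      refine h2 (fm t) (mem_image.2 ⟨t, Finset.mem_sdiff.2 ⟨ht, htJ⟩, rfl⟩) ?_
      show ((2 : ℤ) ^ t * ((n + j * d : ℕ) : ℤ) + 1).toNat.Prime
      rw [hval]
      exact hp
    · intro htJ
      have h3 := h1 (fm t) (mem_image.2 ⟨t, htJ, rfl⟩)
      have h4 : ((2 : ℤ) ^ t * ((n + j * d : ℕ) : ℤ) + 1).toNat.Prime := h3
      rw [hval] at h4
      exact h4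
  · exact (Set.finite_Iic N).subset fun m hm => hm.2.1

/-- the exceptional tuples -/
def IsExc {T : ℕ} (v : Fin T → ℕ) : Prop :=
  Function.Injective v ∧
    ¬ ∃ F : Finset ℕ, F ⊆ univ.image v ∧ 5 * T ≤ 18 * F.card ∧ ∀ l, Nf (univ.image v) F l

open Classical in
/-- the exceptional tuples -/
noncomputable def Exc {T : ℕ} (V : Fin T → Finset ℕ) : Finset (Fin T → ℕ) :=
  (Fintype.piFinset V).filter (fun v => IsExc v)

theorem no_box (T : ℕ) (hT : 1 ≤ T) : ∃ K : ℕ,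
    ∀ V : Fin T → Finset ℕ, ¬ ∃ A : Fin T → Fin K → ℕ, (∀ i, Function.Injective (A i)) ∧
      ∀ c : Fin T → Fin K, (fun i => A i (c i)) ∈ Exc V := by
  classical
  obtain ⟨K, hK, hpat⟩ := patTD T
  have hpat := hpat hT
  refine ⟨K, ?_⟩
  rintro V ⟨A, hA1, hA2⟩
  have hprop : ∀ c : Fin T → Fin K, IsExc (fun i => A i (c i)) := by
    intro c
    have h1 := hA2 c
    unfold Exc at h1
    exact (mem_filter.1 h1).2
  have hinj : Function.Injective (fun x : Fin T × Fin K => A x.1 x.2) := by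
    rintro ⟨i, j⟩ ⟨i', j'⟩ hh
    simp only at hh
    by_cases hii : i = i'
    · subst hii
      rw [hA1 i hh]
    · exfalso
      have h1 := (hprop (fun x => if x = i then j else j')).1
      have h2 := @h1 i i' (by
        simp only [if_true, Ne.symm hii, if_false]
        exact hh)
      exact hii h2
  have hmain := hpat (fun i j => fm (A i j))
    (by
      intro x y hxy
      exact hinj (fm_inj hxy))
    (fun i j => ⟨by unfold fm; positivity, isCoprime_one_right⟩)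
    (by
      intro p hp hpT
      refine ⟨0, fun i j hd => ?_⟩
      have h3 : (p : ℤ) ∣ 1 := by simpa [fm] using hd
      exact (Nat.prime_iff_prime_int.1 hp).not_dvd_one h3)
    ∅ (fun u hu => absurd hu (notMem_empty _))
  have hAX : ∀ (S : Finset (Fin T)) (c : Fin T → Fin K) (l C N : ℕ),
      (∀ S', S' ⊆ S → QX l C N (S'.image (fun g => fm (A g (c g))))
        ((univ \ S').image (fun g => fm (A g (c g))) ∪ ∅)) →
      AX (univ.image (fun g => A g (c g))) (S.image (fun g => A g (c g))) l C N := by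
    intro S c l C N h J hJ
    have h1 := h (S.filter (fun g => A g (c g) ∈ J)) (filter_subset _ _)
    refine QX_anti ?_ ?_ h1
    · intro f hf
      obtain ⟨y, hy, rfl⟩ := mem_image.1 hf
      obtain ⟨g, hg, hgy⟩ := mem_image.1 (hJ hy)
      refine mem_image.2 ⟨g, mem_filter.2 ⟨hg, ?_⟩, ?_⟩
      · rw [hgy]
        exact hy
      · rw [hgy]
    · intro f hf
      obtain ⟨y, hy, rfl⟩ := mem_image.1 hf
      obtain ⟨hy1, hy2⟩ := Finset.mem_sdiff.1 hy
      obtain ⟨g, -, hgy⟩ := mem_image.1 hy1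
      refine mem_union_left _ (mem_image.2 ⟨g, Finset.mem_sdiff.2 ⟨mem_univ _, fun hg => hy2 ?_⟩, ?_⟩)
      · rw [← hgy]
        exact (mem_filter.1 hg).2
      · rw [hgy]
  have hlen : ∀ l : ℕ, ∃ y : Finset (Fin T) × (Fin T → Fin K), (T : ℝ) ≤ (18 / 5) * (y.1.card : ℝ) ∧
      Nf (univ.image (fun g => A g (y.2 g))) (y.1.image (fun g => A g (y.2 g))) l := by
    intro l
    obtain ⟨C, hC⟩ := hmain l
    have h1 : ∃ᶠ N : ℕ in atTop, ∃ y : Finset (Fin T) × (Fin T → Fin K),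
        (T : ℝ) ≤ (18 / 5) * (y.1.card : ℝ) ∧
        AX (univ.image (fun g => A g (y.2 g))) (y.1.image (fun g => A g (y.2 g))) l C N := by
      refine hC.frequently.mono ?_
      rintro N ⟨S, c, h2, h3⟩
      exact ⟨(S, c), h2, hAX S c l C N h3⟩
    rw [frequently_exists] at h1
    obtain ⟨y, hy⟩ := h1
    have hy1 : (T : ℝ) ≤ (18 / 5) * (y.1.card : ℝ) := by
      obtain ⟨N, hN⟩ := hy.exists
      exact hN.1
    exact ⟨y, hy1, C, hy.mono fun N hN J hJ => trans _ _ l C N hN.2 J hJ⟩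
  choose Y hY1 hY2 using hlen
  obtain ⟨y, hy⟩ := Finite.exists_infinite_fiber Y
  have hyl : ∀ l : ℕ, Nf (univ.image (fun g => A g (y.2 g))) (y.1.image (fun g => A g (y.2 g))) l := by
    intro l
    rw [Set.infinite_coe_iff] at hy
    obtain ⟨l', hl', hll'⟩ := hy.exists_gt l
    have h1 : Y l' = y := hl'
    have h2 := hY2 l'
    rw [h1] at h2
    exact Nf_mono hll'.le h2
  have hyc : (T : ℝ) ≤ (18 / 5) * (y.1.card : ℝ) := by
    rw [Set.infinite_coe_iff] at hy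
    obtain ⟨l', hl'⟩ := hy.nonempty
    have h1 : Y l' = y := hl'
    have h2 := hY1 l'
    rw [h1] at h2
    exact h2
  apply (hprop y.2).2
  refine ⟨y.1.image (fun g => A g (y.2 g)), image_subset_image (subset_univ _), ?_, hyl⟩
  rw [card_image_of_injective _ (hprop y.2).1]
  rw [← @Nat.cast_le ℝ]
  push_cast
  linarith

/-- **almost all tuples** -/
theorem almost (T : ℕ) (hT : 1 ≤ T) : ∃ (c C : ℝ), 0 < c ∧ 0 < C ∧
    ∀ (n : ℕ) (V : Fin T → Finset ℕ), 1 ≤ n → (∀ i, n ≤ (V i).card) →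
      ((Exc V).card : ℝ) ≤ C / (n : ℝ) ^ c * ∏ i, ((V i).card : ℝ) := by
  obtain ⟨K', hK'⟩ := no_box T hT
  obtain ⟨c, C, hc, -, hC, hbox⟩ := Pool.Agent.N900.FC.box_saving T K'
  refine ⟨c, C, hc, by linarith, ?_⟩
  intro n V hn hV
  exact hbox ℕ V n hn hV (Exc V) (by
    classical
    unfold Exc
    exact filter_subset _ _) (hK' V)

end Pool.Agent.P8H6.Orb2
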